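import Mathlib
import Pool.Agent.H31.QHyp

set_option autoImplicit false
open Pool.Agent.H31.QHyp Finset

namespace Pool.Agent.Results.MP_89b4a2_co.Denom

/-- gamma n is the n-th coefficient of phi(aq,b;cq) / phi(a,b;c). -/
noncomputable def gamma (n : ℕ) : RF :=
  PowerSeries.coeff n (phi (var 0 * var 3) (var 1) (var 2 * var 3) (var 3) *
    (phi (var 0) (var 1) (var 2) (var 3))⁻¹)

theorem result : ∀ n : ℕ, ∃ P : MvPolynomial (Fin 4) ℤ,
    (∏ k ∈ range (n + 1), (1 - var 2 * var 3 ^ k) ^ ((n + 1) / (k + 1))) * gamma n =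
      (1 - var 2) * MvPolynomial.aeval var P := by
  intro n
  obtain ⟨P, hP⟩ := main'.2 n
  refine ⟨P, ?_⟩
  have h : 1 - var 2 ≠ 0 := by simpa using var_ne 2 3 0
  show D (var 2) (var 3) n * _ = _
  rw [hP, mul_left_comm, mul_inv_cancel_left₀ h, gamma]

end Pool.Agent.Results.MP_89b4a2_co.Denom
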